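import Mathlib

/-!
# Atoms of edge cuts which avoid an invariant set of edges, in vertex-transitive multigraphs
-/

set_option autoImplicit false

namespace Pool.T9h45.VT

open Finset

variable {V E : Type} [Fintype V] [DecidableEq V] [Fintype E] [DecidableEq E]
variable (src dst : E → V)

/-- the edges with exactly one end in `X` -/
def bdy (X : Finset V) : Finset E := univ.filter (fun e => ¬ (src e ∈ X ↔ dst e ∈ X))

/-- the edges at `x` in the boundary of `X` -/
def rd (X : Finset V) (x : V) : Finset E := (bdy src dst X).filter (fun e => src e = x ∨ dst e = x)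

/-- an automorphism -/
def Aut (σ : Equiv.Perm V) (τ : Equiv.Perm E) : Prop :=
  ∀ e, (src (τ e) = σ (src e) ∧ dst (τ e) = σ (dst e)) ∨
    (src (τ e) = σ (dst e) ∧ dst (τ e) = σ (src e))

omit [Fintype V] [DecidableEq E] in
theorem mem_bdy {X : Finset V} {e : E} : e ∈ bdy src dst X ↔ ¬ (src e ∈ X ↔ dst e ∈ X) := by
  unfold bdy
  rw [mem_filter]
  simp

omit [Fintype V] [DecidableEq E] in
theorem bdy_submod (X Y : Finset V) : (bdy src dst (X ∩ Y)).card + (bdy src dst (X ∪ Y)).card ≤
    (bdy src dst X).card + (bdy src dst Y).card := by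
  unfold bdy
  simp only [card_filter]
  rw [← sum_add_distrib, ← sum_add_distrib]
  apply sum_le_sum
  intro e _
  simp only [mem_inter, mem_union]
  by_cases h1 : src e ∈ X <;> by_cases h2 : src e ∈ Y <;>
    by_cases h3 : dst e ∈ X <;> by_cases h4 : dst e ∈ Y <;> simp [h1, h2, h3, h4]

omit [DecidableEq E] in
theorem bdy_compl (X : Finset V) : bdy src dst Xᶜ = bdy src dst X := by
  ext e
  rw [mem_bdy, mem_bdy, mem_compl, mem_compl]
  tauto

omit [Fintype V] in
theorem bdy_image {σ : Equiv.Perm V} {τ : Equiv.Perm E} (h : Aut src dst σ τ) (X : Finset V) :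
    bdy src dst (X.image σ) = (bdy src dst X).image τ := by
  have hm : ∀ v, σ v ∈ X.image σ ↔ v ∈ X := by
    intro v
    rw [mem_image]
    constructor
    · rintro ⟨w, hw, h⟩
      rwa [← σ.injective h]
    · intro hv
      exact ⟨v, hv, rfl⟩
  have key : ∀ e, τ e ∈ bdy src dst (X.image σ) ↔ e ∈ bdy src dst X := by
    intro e
    rw [mem_bdy, mem_bdy]
    rcases h e with ⟨h1, h2⟩ | ⟨h1, h2⟩ <;> rw [h1, h2, hm, hm]
    tauto
  ext e
  rw [mem_image]
  constructor
  · intro he
    refine ⟨τ.symm e, ?_, τ.apply_symm_apply e⟩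
    rw [← key, τ.apply_symm_apply]
    exact he
  · rintro ⟨e', he', rfl⟩
    exact (key e').2 he'

omit [Fintype V] in
theorem rd_image {σ : Equiv.Perm V} {τ : Equiv.Perm E} (h : Aut src dst σ τ) (X : Finset V)
    (x : V) : rd src dst (X.image σ) (σ x) = (rd src dst X x).image τ := by
  ext e
  unfold rd
  rw [bdy_image src dst h, mem_filter, mem_image, mem_image]
  constructor
  · rintro ⟨⟨e', he', rfl⟩, h2⟩
    refine ⟨e', mem_filter.2 ⟨he', ?_⟩, rfl⟩
    rcases h e' with ⟨h3, h4⟩ | ⟨h3, h4⟩
    · rw [h3, h4] at h2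
      exact h2.imp (fun h => σ.injective h) (fun h => σ.injective h)
    · rw [h3, h4] at h2
      exact h2.symm.imp (fun h => σ.injective h) (fun h => σ.injective h)
  · rintro ⟨e', he', rfl⟩
    rw [mem_filter] at he'
    refine ⟨⟨e', he'.1, rfl⟩, ?_⟩
    rcases h e' with ⟨h3, h4⟩ | ⟨h3, h4⟩
    · rw [h3, h4]
      exact he'.2.imp (fun h => congrArg σ h) (fun h => congrArg σ h)
    · rw [h3, h4]
      exact he'.2.symm.imp (fun h => congrArg σ h) (fun h => congrArg σ h)

omit [Fintype V] in
theorem card_bdy_eq (X : Finset V) : (bdy src dst X).card = ∑ x ∈ X, (rd src dst X x).card := by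
  rw [← card_biUnion]
  · congr 1
    ext e
    rw [mem_biUnion]
    constructor
    · intro he
      have h1 := (mem_bdy src dst).1 he
      by_cases hs : src e ∈ X
      · exact ⟨src e, hs, mem_filter.2 ⟨he, Or.inl rfl⟩⟩
      · have hd : dst e ∈ X := by tauto
        exact ⟨dst e, hd, mem_filter.2 ⟨he, Or.inr rfl⟩⟩
    · rintro ⟨x, _, he⟩
      exact (mem_filter.1 he).1
  · intro x hx y hy hxy
    rw [Function.onFun, Finset.disjoint_left]
    intro e he he'
    unfold rd at he he'
    rw [mem_filter, mem_bdy] at he he'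
    rcases he.2 with h | h <;> rcases he'.2 with h' | h'
    · exact hxy (h.symm.trans h')
    · apply he.1
      rw [h, h']
      exact ⟨fun _ => hy, fun _ => hx⟩
    · apply he.1
      rw [h, h']
      exact ⟨fun _ => hx, fun _ => hy⟩
    · exact hxy (h.symm.trans h')

/-- **Atoms** -/
theorem atom (P : Finset V → Prop) (hint : ∀ X Y, P X → P Y → P (X ∩ Y))
    (hcompl : ∀ X, P X → P Xᶜ)
    (haut : ∀ σ τ, Aut src dst σ τ → ∀ X, P X → P (X.image σ))
    (Z : Finset V) (hZ : P Z) (hZ1 : Z.Nonempty) (hZ2 : Z ≠ univ) :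
    ∃ X, P X ∧ X.Nonempty ∧ X ≠ univ ∧ (bdy src dst X).card ≤ (bdy src dst Z).card ∧
      ∀ x ∈ X, ∀ y ∈ X, (∃ σ τ, Aut src dst σ τ ∧ σ x = y) →
        (rd src dst X x).card = (rd src dst X y).card := by
  classical
  have hun : ∀ X Y, P X → P Y → P (X ∪ Y) := by
    intro X Y hX hY
    have h1 := hcompl _ (hint _ _ (hcompl X hX) (hcompl Y hY))
    rwa [compl_inter, compl_compl, compl_compl] at h1
  set N := Fintype.card V with hN
  let F : Finset (Finset V) := (univ : Finset (Finset V)).filter
    fun X => P X ∧ X.Nonempty ∧ X ≠ univ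
  have hF : F.Nonempty := ⟨Z, by simp [F, hZ, hZ1, hZ2]⟩
  obtain ⟨X, hXF, hmin⟩ := Finset.exists_min_image F
    (fun X => (bdy src dst X).card * (N + 1) + X.card) hF
  have hX : P X ∧ X.Nonempty ∧ X ≠ univ := by simpa [F] using hXF
  have m1 : ∀ Y : Finset V, P Y → Y.Nonempty → Y ≠ univ →
      (bdy src dst X).card ≤ (bdy src dst Y).card := by
    intro Y h0 h1 h2
    have h := hmin Y (by simp [F, h0, h1, h2])
    have hY : Y.card ≤ N := Finset.card_le_univ Y
    by_contra hlt
    push Not at hlt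
    have : ((bdy src dst Y).card + 1) * (N + 1) ≤ (bdy src dst X).card * (N + 1) :=
      Nat.mul_le_mul_right _ hlt
    nlinarith
  have m2 : ∀ Y : Finset V, P Y → Y.Nonempty → Y ≠ univ →
      (bdy src dst Y).card ≤ (bdy src dst X).card → X.card ≤ Y.card := by
    intro Y h0 h1 h2 h3
    have h := hmin Y (by simp [F, h0, h1, h2])
    have h4 : (bdy src dst Y).card = (bdy src dst X).card := le_antisymm h3 (m1 Y h0 h1 h2)
    rw [h4] at h
    omega
  have half : 2 * X.card ≤ N := by
    have h1 : (Xᶜ).Nonempty := by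
      rw [Finset.nonempty_iff_ne_empty]
      intro h
      rw [Finset.compl_eq_empty_iff] at h
      exact hX.2.2 h
    have h2 : Xᶜ ≠ univ := by
      intro h
      have h3 : X = ∅ := by
        rw [← compl_compl X, h, compl_univ]
      exact hX.2.1.ne_empty h3
    have h3 := m2 Xᶜ (hcompl X hX.1) h1 h2 (by rw [bdy_compl])
    rw [card_compl] at h3
    have h4 : X.card ≤ Fintype.card V := card_le_univ X
    omega
  refine ⟨X, hX.1, hX.2.1, hX.2.2, m1 Z hZ hZ1 hZ2, ?_⟩
  rintro x hx y hy ⟨σ, τ, hστ, hσ⟩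
  have hP := haut σ τ hστ
  set Y := X.image σ with hY
  have hYc : Y.card = X.card := card_image_of_injective _ σ.injective
  have hYb : (bdy src dst Y).card = (bdy src dst X).card := by
    rw [hY, bdy_image src dst hστ, card_image_of_injective _ τ.injective]
  have hyY : y ∈ Y := by
    rw [hY, mem_image]
    exact ⟨x, hx, hσ⟩
  have hYX : Y = X := by
    have hne : (X ∩ Y).Nonempty := ⟨y, mem_inter.2 ⟨hy, hyY⟩⟩
    have hcard := card_union_add_card_inter X Y
    have hpos := card_pos.2 hne
    have hun1 : X ∪ Y ≠ univ := by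
      intro h
      rw [h, card_univ] at hcard
      omega
    have hint1 : X ∩ Y ≠ univ := by
      intro h
      apply hX.2.2
      rw [eq_univ_iff_forall] at h ⊢
      exact fun v => (mem_inter.1 (h v)).1
    have h1 := bdy_submod src dst X Y
    have h2 := m1 (X ∪ Y) (hun _ _ hX.1 (hP _ hX.1)) (hX.2.1.mono subset_union_left) hun1
    have h3 := m2 (X ∩ Y) (hint _ _ hX.1 (hP _ hX.1)) hne hint1 (by omega)
    have h4 : X ∩ Y = X := eq_of_subset_of_card_le inter_subset_left h3
    have h5 : X ⊆ Y := by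
      intro v hv
      rw [← h4] at hv
      exact (mem_inter.1 hv).2
    exact (eq_of_subset_of_card_le h5 (by omega)).symm
  have h6 := rd_image src dst hστ X x
  rw [← hY, hYX, hσ] at h6
  rw [h6, card_image_of_injective _ τ.injective]

end Pool.T9h45.VT
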