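import Pool.Agent.T9h45.VT.Main

/-!
# Circuits as cycles
-/

set_option autoImplicit false

namespace Pool.T9h45.VT

open Finset Pool.Agent.Results.MP_c8786f_co.ElevenNewEdges

variable {V E : Type} [DecidableEq V] [Fintype E] [DecidableEq E]
variable {src dst : E → V}

/-- a circuit with `n ≥ 3` vertices is a cycle -/
theorem cyc_circuit {n : ℕ} (hn : 3 ≤ n) (p : ℕ → V) (e : ℕ → E) (h0 : p n = p 0)
    (hinj : ∀ i j, i < n → j < n → p i = p j → i = j)
    (he : ∀ i, i < n → (src (e i) = p i ∧ dst (e i) = p (i + 1)) ∨
      (src (e i) = p (i + 1) ∧ dst (e i) = p i)) :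
    Cyc src dst ((range n).image e) := by
  -- positions modulo n
  have hinj' : ∀ i j, i < n → j < n → p (i + 1) = p (j + 1) → i = j := by
    intro i j hi hj h
    rcases Nat.lt_or_ge (i + 1) n with hi' | hi' <;> rcases Nat.lt_or_ge (j + 1) n with hj' | hj'
    · have := hinj _ _ hi' hj' h; omega
    · have hj2 : j + 1 = n := by omega
      rw [hj2, h0] at h
      have := hinj _ _ hi' (by omega) h; omega
    · have hi2 : i + 1 = n := by omega
      rw [hi2, h0] at h
      have := hinj _ _ (by omega) hj' h; omega
    · omega
  have hswap : ∀ i j, i < n → j < n → p i = p (j + 1) → p (i + 1) = p j → False := by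
    intro i j hi hj h1 h2
    rcases Nat.lt_or_ge (i + 1) n with hi' | hi' <;> rcases Nat.lt_or_ge (j + 1) n with hj' | hj'
    · have := hinj _ _ hi hj' h1
      have := hinj _ _ hi' hj h2
      omega
    · have hj2 : j + 1 = n := by omega
      rw [hj2, h0] at h1
      have := hinj _ _ hi (by omega) h1
      have := hinj _ _ hi' hj h2
      omega
    · have hi2 : i + 1 = n := by omega
      rw [hi2, h0] at h2
      have := hinj _ _ hi hj' h1
      have := hinj _ _ (by omega) hj h2
      omega
    · have hij : i = j := by omega
      subst hij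
      have hi2 : i + 1 = n := by omega
      rw [hi2, h0] at h1
      have := hinj _ _ hi (by omega) h1
      omega
  have heinj : ∀ i j, i < n → j < n → e i = e j → i = j := by
    intro i j hi hj h
    have h1 := he i hi
    have h2 := he j hj
    rw [h] at h1
    rcases h1 with h1 | h1 <;> rcases h2 with h2 | h2
    · exact hinj i j hi hj (h1.1.symm.trans h2.1)
    · exact (hswap i j hi hj (h1.1.symm.trans h2.1) (h1.2.symm.trans h2.2)).elim
    · exact (hswap i j hi hj (h1.2.symm.trans h2.2) (h1.1.symm.trans h2.1)).elim
    · exact hinj i j hi hj (h1.2.symm.trans h2.2)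
  let s : ℕ → ℤ := fun i => if src (e i) = p i ∧ dst (e i) = p (i + 1) then 1 else -1
  have hs : ∀ i, s i = 1 ∨ s i = -1 := by
    intro i
    simp only [s]
    split_ifs
    · exact Or.inl rfl
    · exact Or.inr rfl
  let z : E → ℤ := fun a => ∑ i ∈ range n, if e i = a then s i else 0
  have hz1 : ∀ i, i < n → z (e i) = s i := by
    intro i hi
    simp only [z]
    rw [sum_eq_single i]
    · rw [if_pos rfl]
    · intro j hj hji
      exact if_neg fun h => hji (heinj j i (mem_range.1 hj) hi h)
    · exact fun h => (h (mem_range.2 hi)).elim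
  have hz0 : ∀ a, a ∉ (range n).image e → z a = 0 := by
    intro a ha
    simp only [z]
    apply sum_eq_zero
    intro i hi
    exact if_neg fun h => ha (mem_image.2 ⟨i, hi, h⟩)
  refine ⟨z, ?_, ?_, ?_⟩
  · rw [isFlow_iff]
    intro v
    simp only [z, sum_mul]
    rw [sum_comm]
    have hterm : ∀ i ∈ range n, (∑ a, (if e i = a then s i else 0) *
        ((if src a = v then 1 else 0) - (if dst a = v then 1 else 0)) : ℤ) =
        (if p i = v then 1 else 0) - (if p (i + 1) = v then 1 else 0) := by
      intro i hi
      rw [sum_eq_single (e i)]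
      · rw [if_pos rfl]
        by_cases hcase : src (e i) = p i ∧ dst (e i) = p (i + 1)
        · have : s i = 1 := if_pos hcase
          rw [this, hcase.1, hcase.2, one_mul]
        · have : s i = -1 := if_neg hcase
          have h4 := (he i (mem_range.1 hi)).resolve_left hcase
          rw [this, h4.1, h4.2]
          ring
      · intro a _ ha
        rw [if_neg (fun h => ha h.symm), zero_mul]
      · exact fun h => (h (mem_univ _)).elim
    rw [sum_congr rfl hterm, sum_range_sub' (fun i => if p i = v then (1 : ℤ) else 0), h0, sub_self]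
  · intro a
    by_cases ha : a ∈ (range n).image e
    · obtain ⟨i, hi, rfl⟩ := mem_image.1 ha
      rw [hz1 i (mem_range.1 hi)]
      exact Or.inr (hs i)
    · exact Or.inl (hz0 a ha)
  · intro a
    constructor
    · intro h
      by_contra ha
      exact h (hz0 a ha)
    · intro ha
      obtain ⟨i, hi, rfl⟩ := mem_image.1 ha
      rw [hz1 i (mem_range.1 hi)]
      rcases hs i with h | h <;> rw [h] <;> norm_num

/-- a vertex set which contains a vertex of a circuit, and whose boundary avoids the circuit,
contains the circuit -/
theorem circuit_sub {n : ℕ} (p : ℕ → V) (e : ℕ → E)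
    (he : ∀ i, i < n → (src (e i) = p i ∧ dst (e i) = p (i + 1)) ∨
      (src (e i) = p (i + 1) ∧ dst (e i) = p i)) (X : Finset V) (h0 : p 0 ∈ X)
    (hX : Disjoint (bdy src dst X) ((range n).image e)) : ∀ i, i ≤ n → p i ∈ X := by
  intro i
  induction i with
  | zero => exact fun _ => h0
  | succ i ih =>
    intro hi
    have h1 := ih (by omega)
    rw [Finset.disjoint_right] at hX
    have h2 := hX (mem_image.2 ⟨i, mem_range.2 (by omega), rfl⟩)
    rw [mem_bdy, not_not] at h2
    rcases he i (by omega) with h | h
    · rw [h.1, h.2] at h2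
      exact h2.1 h1
    · rw [h.1, h.2] at h2
      exact h2.2 h1

end Pool.T9h45.VT
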