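import Pool.Agent.T9h45.VT.Atom
import Pool.Agent.Results.MP_c8786f_co.ElevenNewEdges

/-!
# Vertex-transitive multigraphs: closure of short circuits and 5-flows
-/

set_option autoImplicit false

namespace Pool.T9h45.VT

open Finset Pool.Agent.Results.MP_c8786f_co.ElevenNewEdges

variable {V E : Type} [Fintype V] [DecidableEq V] [Fintype E] [DecidableEq E]
variable (src dst : E → V)

/-- supports of flows with values in `{0, 1, -1}` -/
def Cyc (C : Finset E) : Prop :=
  ∃ z : E → ℤ, IsFlow src dst z ∧ (∀ e, z e = 0 ∨ z e = 1 ∨ z e = -1) ∧ ∀ e, z e ≠ 0 ↔ e ∈ C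

/-- unions of cycles each of which has at most eleven new edges -/
inductive Ch : Finset E → Prop
  | zero : Ch ∅
  | add (F C : Finset E) (hF : Ch F) (hC : Cyc src dst C) (h : (C \ F).card ≤ 11) : Ch (F ∪ C)

theorem Ch.family {F : Finset E} (h : Ch src dst F) : ∃ (m : ℕ) (C : Fin m → Finset E),
    (∀ i, Cyc src dst (C i)) ∧
    (∀ i, (C i \ (Finset.univ.filter (fun j => j < i)).biUnion C).card ≤ 11) ∧
    Finset.univ.biUnion C = F := by
  induction h with
  | zero => exact ⟨0, fun _ => ∅, fun i => i.elim0, fun i => i.elim0, by simp⟩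
  | add F C hF hC h ih =>
    obtain ⟨m, D, h1, h2, h3⟩ := ih
    refine ⟨m + 1, Fin.snoc (α := fun _ => Finset E) D C, ?_, ?_, ?_⟩
    · intro i
      refine Fin.lastCases ?_ (fun j => ?_) i
      · rw [Fin.snoc_last]
        exact hC
      · rw [Fin.snoc_castSucc]
        exact h1 j
    · intro i
      refine Fin.lastCases ?_ (fun j => ?_) i
      · rw [Fin.snoc_last]
        refine le_trans (card_le_card ?_) h
        intro e he
        rw [mem_sdiff] at he ⊢
        refine ⟨he.1, fun he' => he.2 ?_⟩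
        rw [← h3, mem_biUnion] at he'
        obtain ⟨j, _, hj⟩ := he'
        rw [mem_biUnion]
        refine ⟨Fin.castSucc j, mem_filter.2 ⟨mem_univ _, Fin.castSucc_lt_last j⟩, ?_⟩
        rw [Fin.snoc_castSucc]
        exact hj
      · rw [Fin.snoc_castSucc]
        refine le_trans (card_le_card ?_) (h2 j)
        intro e he
        rw [mem_sdiff] at he ⊢
        refine ⟨he.1, fun he' => he.2 ?_⟩
        rw [mem_biUnion] at he' ⊢
        obtain ⟨k, hk, hk'⟩ := he'
        refine ⟨Fin.castSucc k, mem_filter.2 ⟨mem_univ _, ?_⟩, ?_⟩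
        · exact Fin.castSucc_lt_castSucc_iff.2 (mem_filter.1 hk).2
        · rw [Fin.snoc_castSucc]
          exact hk'
    · ext e
      rw [mem_biUnion, mem_union, ← h3, mem_biUnion]
      constructor
      · rintro ⟨i, _, hi⟩
        revert hi
        refine Fin.lastCases ?_ (fun j => ?_) i
        · rw [Fin.snoc_last]
          exact fun hi => Or.inr hi
        · rw [Fin.snoc_castSucc]
          exact fun hi => Or.inl ⟨j, mem_univ _, hi⟩
      · rintro (⟨j, _, hj⟩ | h)
        · refine ⟨Fin.castSucc j, mem_univ _, ?_⟩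
          rw [Fin.snoc_castSucc]
          exact hj
        · refine ⟨Fin.last m, mem_univ _, ?_⟩
          rw [Fin.snoc_last]
          exact h

theorem Ch.of_family (m : ℕ) : ∀ (C : Fin m → Finset E),
    (∀ i, Cyc src dst (C i)) →
    (∀ i, (C i \ (Finset.univ.filter (fun j => j < i)).biUnion C).card ≤ 11) →
    Ch src dst (Finset.univ.biUnion C) := by
  induction m with
  | zero =>
    intro C _ _
    have : Finset.univ.biUnion C = ∅ := by simp
    rw [this]
    exact Ch.zero
  | succ m ih =>
    intro C h1 h2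
    have h3 := ih (fun i => C (Fin.castSucc i)) (fun i => h1 _) (fun i => by
      refine le_trans (card_le_card ?_) (h2 (Fin.castSucc i))
      intro e he
      rw [mem_sdiff] at he ⊢
      refine ⟨he.1, fun he' => he.2 ?_⟩
      rw [mem_biUnion] at he' ⊢
      obtain ⟨k, hk, hk'⟩ := he'
      have hk2 := (mem_filter.1 hk).2
      have hkm : k.val < m := lt_of_lt_of_le hk2 (Nat.le_of_lt_succ (Nat.lt_succ_of_lt i.2))
      refine ⟨⟨k.val, hkm⟩, mem_filter.2 ⟨mem_univ _, ?_⟩, ?_⟩
      · exact hk2
      · have : Fin.castSucc ⟨k.val, hkm⟩ = k := Fin.ext rfl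
        rw [this]
        exact hk')
    have h4 := Ch.add _ (C (Fin.last m)) h3 (h1 _) (by
      refine le_trans (card_le_card ?_) (h2 (Fin.last m))
      intro e he
      rw [mem_sdiff] at he ⊢
      refine ⟨he.1, fun he' => he.2 ?_⟩
      rw [mem_biUnion] at he' ⊢
      obtain ⟨k, hk, hk'⟩ := he'
      have hk2 : k < Fin.last m := (mem_filter.1 hk).2
      refine ⟨⟨k.val, hk2⟩, mem_univ _, ?_⟩
      have : Fin.castSucc ⟨k.val, hk2⟩ = k := Fin.ext rfl
      rw [this]
      exact hk')
    have h5 : Finset.univ.biUnion C =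
        (Finset.univ.biUnion fun i => C (Fin.castSucc i)) ∪ C (Fin.last m) := by
      ext e
      rw [mem_biUnion, mem_union, mem_biUnion]
      constructor
      · rintro ⟨i, _, hi⟩
        revert hi
        refine Fin.lastCases ?_ (fun j => ?_) i
        · exact fun hi => Or.inr hi
        · exact fun hi => Or.inl ⟨j, mem_univ _, hi⟩
      · rintro (⟨j, _, hj⟩ | h)
        · exact ⟨Fin.castSucc j, mem_univ _, hj⟩
        · exact ⟨Fin.last m, mem_univ _, h⟩
    rw [h5]
    exact h4

variable {src dst}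

theorem Cyc.image {σ : Equiv.Perm V} {τ : Equiv.Perm E} (h : Aut src dst σ τ) {C : Finset E}
    (hC : Cyc src dst C) : Cyc src dst (C.image τ) := by
  obtain ⟨z, h1, h2, h3⟩ := hC
  rw [isFlow_iff] at h1
  let s : E → ℤ := fun e => if src (τ e) = σ (src e) ∧ dst (τ e) = σ (dst e) then 1 else -1
  have hs : ∀ e, s e = 1 ∨ s e = -1 := by
    intro e
    simp only [s]
    split_ifs
    · exact Or.inl rfl
    · exact Or.inr rfl
  refine ⟨fun e => s (τ.symm e) * z (τ.symm e), ?_, ?_, ?_⟩
  · rw [isFlow_iff]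
    intro v
    rw [← Equiv.sum_comp τ]
    refine Eq.trans (sum_congr rfl fun e _ => ?_) (h1 (σ.symm v))
    rw [τ.symm_apply_apply]
    have hv : ∀ u, (σ u = v) ↔ u = σ.symm v := fun u => by
      rw [Equiv.eq_symm_apply]
    by_cases hcase : src (τ e) = σ (src e) ∧ dst (τ e) = σ (dst e)
    · have hse : s e = 1 := if_pos hcase
      rw [hse, hcase.1, hcase.2, one_mul]
      simp only [hv]
    · have hse : s e = -1 := if_neg hcase
      have h4 := (h e).resolve_left hcase
      rw [hse, h4.1, h4.2]
      simp only [hv]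
      ring
  · intro e
    rcases hs (τ.symm e) with h4 | h4 <;> rcases h2 (τ.symm e) with h5 | h5 | h5 <;>
      simp [h4, h5]
  · intro e
    have h4 : s (τ.symm e) ≠ 0 := by
      rcases hs (τ.symm e) with h4 | h4 <;> rw [h4] <;> norm_num
    rw [mul_ne_zero_iff, mem_image]
    constructor
    · rintro ⟨_, h5⟩
      exact ⟨τ.symm e, (h3 _).1 h5, τ.apply_symm_apply e⟩
    · rintro ⟨e', he', rfl⟩
      rw [τ.symm_apply_apply] at h4 ⊢
      exact ⟨h4, (h3 _).2 he'⟩

theorem Ch.image {σ : Equiv.Perm V} {τ : Equiv.Perm E} (h : Aut src dst σ τ) {F : Finset E}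
    (hF : Ch src dst F) : Ch src dst (F.image τ) := by
  induction hF with
  | zero => rw [image_empty]; exact Ch.zero
  | add F C hF hC hcard ih =>
    rw [image_union]
    refine Ch.add _ _ ih (hC.image h) ?_
    rw [← image_sdiff _ _ τ.injective, card_image_of_injective _ τ.injective]
    exact hcard

/-- there is a largest chain -/
theorem exists_max : ∃ F, Ch src dst F ∧ ∀ F', Ch src dst F' → F' ⊆ F := by
  classical
  let S : Finset (Finset E) := univ.filter fun F => Ch src dst F
  have hS : S.Nonempty := ⟨∅, mem_filter.2 ⟨mem_univ _, Ch.zero⟩⟩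
  obtain ⟨F, hF, hmax⟩ := exists_max_image S card hS
  have hF' : Ch src dst F := (mem_filter.1 hF).2
  refine ⟨F, hF', ?_⟩
  intro F' h
  induction h with
  | zero => exact empty_subset _
  | add G C hG hC hcard ih =>
    apply union_subset ih
    have h1 : (C \ F).card ≤ 11 := le_trans (card_le_card (sdiff_subset_sdiff (Subset.refl _) ih))
      hcard
    have h2 := hmax (F ∪ C) (mem_filter.2 ⟨mem_univ _, Ch.add F C hF' hC h1⟩)
    have h3 : F = F ∪ C := eq_of_subset_of_card_le subset_union_left h2
    rw [h3]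
    exact subset_union_right

variable (src dst)

/-- some automorphism takes `x` to `y` -/
def Sim (x y : V) : Prop := ∃ σ τ, Aut src dst σ τ ∧ σ x = y

def VTr : Prop := ∀ x y : V, Sim src dst x y

def Conn : Prop := ∀ X : Finset V, X.Nonempty → X ≠ univ → (bdy src dst X).Nonempty

variable {src dst}

theorem atom_card (hc : Conn src dst) {X : Finset V} (h1 : X.Nonempty) (h2 : X ≠ univ)
    (h : ∀ x ∈ X, ∀ y ∈ X, (rd src dst X x).card = (rd src dst X y).card) :
    ∃ r, 1 ≤ r ∧ (∀ x ∈ X, (rd src dst X x).card = r) ∧ (bdy src dst X).card = X.card * r := by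
  obtain ⟨x, hx⟩ := h1
  have h3 : ∀ y ∈ X, (rd src dst X y).card = (rd src dst X x).card := fun y hy => h y hy x hx
  have h4 : (bdy src dst X).card = X.card * (rd src dst X x).card := by
    rw [card_bdy_eq, sum_congr rfl h3, sum_const, smul_eq_mul]
  refine ⟨(rd src dst X x).card, ?_, h3, h4⟩
  have h5 := card_pos.2 (hc X ⟨x, hx⟩ h2)
  rw [h4] at h5
  exact Nat.pos_of_mul_pos_left h5

/-- the cuts which avoid the closure are large -/
theorem cuts (hc : Conn src dst)
    (hx0 : ∀ x : V, ∃ F0, Ch src dst F0 ∧ ∀ X : Finset V, x ∈ X → Disjoint (bdy src dst X) F0 →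
      ∃ Y ⊆ X, 4 ≤ Y.card ∧ ∀ y ∈ Y, Sim src dst x y) :
    ∃ F, Ch src dst F ∧ ∀ Z : Finset V, Z.Nonempty → Z ≠ univ → Disjoint (bdy src dst Z) F →
      4 ≤ (bdy src dst Z).card := by
  obtain ⟨F, hF, hmax⟩ := exists_max (src := src) (dst := dst)
  refine ⟨F, hF, ?_⟩
  intro Z hZ1 hZ2 hZ
  have hFτ : ∀ σ τ, Aut src dst σ τ → F.image τ = F := by
    intro σ τ h
    apply eq_of_subset_of_card_le (hmax _ (hF.image h))
    rw [card_image_of_injective _ τ.injective]
  have hPimg : ∀ σ τ, Aut src dst σ τ → ∀ X, Disjoint (bdy src dst X) F →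
      Disjoint (bdy src dst (X.image σ)) F := by
    intro σ τ h X hX
    rw [bdy_image src dst h, ← hFτ σ τ h]
    exact (disjoint_image τ.injective).2 hX
  obtain ⟨X, hX, hX1, hX2, hle, hreg⟩ := atom src dst (fun X => Disjoint (bdy src dst X) F)
    (by
      intro X Y hX hY
      rw [Finset.disjoint_left] at hX hY ⊢
      intro e he
      rw [mem_bdy, mem_inter, mem_inter] at he
      by_cases h1 : src e ∈ X ↔ dst e ∈ X
      · apply hY
        rw [mem_bdy]
        tauto
      · exact hX ((mem_bdy src dst).2 h1))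
    (by
      intro X hX
      rw [bdy_compl]
      exact hX)
    hPimg Z hZ hZ1 hZ2
  -- a vertex of `X` with an edge in the boundary
  obtain ⟨e, he⟩ := hc X hX1 hX2
  obtain ⟨x, hx, hxr⟩ : ∃ x ∈ X, 1 ≤ (rd src dst X x).card := by
    have h1 := (mem_bdy src dst).1 he
    by_cases h2 : src e ∈ X
    · exact ⟨src e, h2, card_pos.2 ⟨e, mem_filter.2 ⟨he, Or.inl rfl⟩⟩⟩
    · have h3 : dst e ∈ X := by tauto
      exact ⟨dst e, h3, card_pos.2 ⟨e, mem_filter.2 ⟨he, Or.inr rfl⟩⟩⟩
  obtain ⟨F0, hF0, hx0'⟩ := hx0 x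
  obtain ⟨Y, hYX, hY4, hY⟩ := hx0' X hx (hX.mono_right (hmax _ hF0))
  have h5 : Y.card ≤ ∑ y ∈ Y, (rd src dst X y).card := by
    rw [card_eq_sum_ones]
    apply sum_le_sum
    intro y hy
    rw [← hreg x hx y (hYX hy) (hY y hy)]
    exact hxr
  have h6 : ∑ y ∈ Y, (rd src dst X y).card ≤ (bdy src dst X).card := by
    rw [card_bdy_eq]
    exact sum_le_sum_of_subset hYX
  omega

/-- all edges at `x` -/
def at_ (src dst : E → V) (x : V) : Finset E := univ.filter (fun e => src e = x ∨ dst e = x)

/-- simple graphs of degree at least four: all cuts are large -/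
theorem cuts_simple (hc : Conn src dst) (hvt : VTr src dst) (hl : ∀ e, src e ≠ dst e)
    (hp : ∀ e e', (src e = src e' ∧ dst e = dst e') ∨ (src e = dst e' ∧ dst e = src e') → e = e')
    (x0 : V) (h4 : 4 ≤ (at_ src dst x0).card) :
    ∀ Z : Finset V, Z.Nonempty → Z ≠ univ → 4 ≤ (bdy src dst Z).card := by
  intro Z hZ1 hZ2
  have hdeg : ∀ x, 4 ≤ (at_ src dst x).card := by
    intro x
    obtain ⟨σ, τ, h1, h2⟩ := hvt x x0
    have h3 : at_ src dst x0 ⊆ (at_ src dst x).image τ := by
      intro e he
      unfold at_ at he ⊢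
      rw [mem_filter] at he
      rw [mem_image]
      refine ⟨τ.symm e, mem_filter.2 ⟨mem_univ _, ?_⟩, τ.apply_symm_apply e⟩
      have h5 := h1 (τ.symm e)
      rw [τ.apply_symm_apply] at h5
      rcases h5 with ⟨h5, h6⟩ | ⟨h5, h6⟩
      · rw [h5, h6, ← h2] at he
        exact he.2.imp (fun h => σ.injective h) (fun h => σ.injective h)
      · rw [h5, h6, ← h2] at he
        exact he.2.symm.imp (fun h => σ.injective h) (fun h => σ.injective h)
    have h4' := card_le_card h3
    rw [card_image_of_injective _ τ.injective] at h4'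
    omega
  obtain ⟨X, -, hX1, hX2, hle, hreg⟩ := atom src dst (fun _ => True) (fun _ _ _ _ => trivial)
    (fun _ _ => trivial) (fun _ _ _ _ _ => trivial) Z trivial hZ1 hZ2
  obtain ⟨r, hr, hrx, hcard⟩ := atom_card hc hX1 hX2 (fun x hx y hy => hreg x hx y hy (hvt x y))
  obtain ⟨x, hx⟩ := hX1
  -- the edges at `x` which do not leave `X` lead to different vertices of `X`
  have h5 : ((at_ src dst x) \ (rd src dst X x)).card + 1 ≤ X.card := by
    let o : E → V := fun e => if src e = x then dst e else src e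
    have ho : ((at_ src dst x) \ (rd src dst X x)).image o ⊆ X.erase x := by
      intro y hy
      rw [mem_image] at hy
      obtain ⟨e, he, rfl⟩ := hy
      unfold at_ rd at he
      rw [mem_sdiff, mem_filter, mem_filter, mem_bdy] at he
      obtain ⟨⟨-, h6⟩, h7⟩ := he
      have h8 : src e ∈ X ↔ dst e ∈ X := by tauto
      rw [mem_erase]
      by_cases h9 : src e = x
      · have h10 : o e = dst e := if_pos h9
        rw [h10]
        refine ⟨fun h => hl e (h9.trans h.symm), ?_⟩
        rw [← h8, h9]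
        exact hx
      · have h10 : o e = src e := if_neg h9
        rw [h10]
        refine ⟨h9, ?_⟩
        rw [h8, h6.resolve_left h9]
        exact hx
    have hinj : Set.InjOn o ((at_ src dst x) \ (rd src dst X x) : Finset E) := by
      intro e he e' he' h
      rw [mem_coe, mem_sdiff] at he he'
      have h6 := (mem_filter.1 he.1).2
      have h7 := (mem_filter.1 he'.1).2
      apply hp
      by_cases h8 : src e = x <;> by_cases h9 : src e' = x
      · simp only [o, if_pos h8, if_pos h9] at h
        exact Or.inl ⟨h8.trans h9.symm, h⟩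
      · simp only [o, if_pos h8, if_neg h9] at h
        exact Or.inr ⟨h8.trans (h7.resolve_left h9).symm, h⟩
      · simp only [o, if_neg h8, if_pos h9] at h
        exact Or.inr ⟨h, (h6.resolve_left h8).trans h9.symm⟩
      · simp only [o, if_neg h8, if_neg h9] at h
        exact Or.inl ⟨h, (h6.resolve_left h8).trans (h7.resolve_left h9).symm⟩
    have h6 := card_le_card ho
    rw [card_image_of_injOn hinj, card_erase_of_mem hx] at h6
    have h7 := card_pos.2 ⟨x, hx⟩
    omega
  have h6 : rd src dst X x ⊆ at_ src dst x := by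
    intro e he
    unfold rd at he
    unfold at_
    rw [mem_filter] at he ⊢
    exact ⟨mem_univ _, he.2⟩
  rw [card_sdiff_of_subset h6, hrx x hx] at h5
  have h7 := card_le_card h6
  rw [hrx x hx] at h7
  have h8 := hdeg x
  have h9 : ((at_ src dst x).card - r + 1) * r ≤ X.card * r := Nat.mul_le_mul_right _ h5
  obtain ⟨a, ha⟩ : ∃ a, (at_ src dst x).card = r + a := ⟨_, (Nat.add_sub_cancel' h7).symm⟩
  rw [ha] at h9 h8
  have h10 : r + a - r + 1 = a + 1 := by omega
  rw [h10] at h9
  have h11 : r + a ≤ (a + 1) * r := by nlinarith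
  omega

end Pool.T9h45.VT
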